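import Mathlib.Algebra.Group.End

namespace Pool.Agent.MP_081e4c_co

/-- Men and women are both indexed by `Fin n`. `pm m w` is the rank of woman `w` in the list of
man `m` and `pw w m` the rank of man `m` in the list of woman `w` (smaller is better). The
matching `M` (man `m` is matched to woman `M m`) is stable if it has no blocking pair. -/
def IsStable {n : ℕ} (pm pw : Fin n → Equiv.Perm (Fin n)) (M : Equiv.Perm (Fin n)) : Prop :=
  ¬ ∃ m w : Fin n, M m ≠ w ∧ pm m w < pm m (M m) ∧ pw w m < pw w (M.symm w)

end Pool.Agent.MP_081e4c_co
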