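import Mathlib.Tactic.Monotonicity.Lemmas
import Mathlib.Data.Int.Star
import Mathlib.Algebra.Order.Ring.Star
import Mathlib.Algebra.Order.Star.Real
import Mathlib.Analysis.Complex.ExponentialBounds
import Mathlib.Tactic.Algebra.Basic
import Pool.Agent.MP_081e4c_co.Defs

-- ======== part 0: formerly Pool.Agent.MP_081e4c_co.Entropy
section MrgPart0

/-! A Kraft-type inequality, random orders, and the numerical constant. -/

open Finset

namespace Pool.Agent.MP_081e4c_co

lemma kraft {α β γ : Type*} [Fintype α] [DecidableEq α] [DecidableEq β] [DecidableEq γ]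
    {κ : Type*} [LinearOrder κ] (S : Finset γ) (ev : γ → α → β)
    (hinj : ∀ f g, (∀ x, ev f x = ev g x) → f = g) (τ : α → κ) (hτ : Function.Injective τ)
    (O : α → γ → Finset β) (hmem : ∀ f ∈ S, ∀ x, ev f x ∈ O x f)
    (hdep : ∀ f g x, (∀ y, τ y < τ x → ev f y = ev g y) → O x f = O x g) :
    ∑ f ∈ S, ∏ x, ((O x f).card : ℝ)⁻¹ ≤ 1 := by
  have key : ∀ U : Finset α, (∀ x ∈ U, ∀ y, τ x ≤ τ y → y ∈ U) → ∀ f0 : γ,
      ∑ f ∈ S with ∀ x ∉ U, ev f x = ev f0 x, ∏ x ∈ U, ((O x f).card : ℝ)⁻¹ ≤ 1 := by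
    intro U
    induction U using Finset.induction_on_min_value τ with
    | empty =>
      intro _ f0
      simp only [prod_empty, sum_const, nsmul_eq_mul, mul_one, Nat.cast_le_one]
      exact card_le_one.2 fun f hf g hg => hinj f g fun x => by
        rw [(mem_filter.1 hf).2 x (notMem_empty x), (mem_filter.1 hg).2 x (notMem_empty x)]
    | insert a s ha hmin ih =>
      intro hU f0
      have hs : ∀ x ∈ s, ∀ y, τ x ≤ τ y → y ∈ s := by
        intro x hx y hxy
        rcases mem_insert.1 (hU x (mem_insert_of_mem hx) y hxy) with rfl | h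
        · exact absurd (hτ (le_antisymm hxy (hmin x hx)) ▸ hx) ha
        · exact h
      have hO : ∀ f ∈ S.filter fun f => ∀ x ∉ insert a s, ev f x = ev f0 x, O a f = O a f0 := by
        intro f hf
        refine hdep f f0 a fun y hy => (mem_filter.1 hf).2 y fun h => ?_
        rcases mem_insert.1 h with rfl | h
        · exact lt_irrefl _ hy
        · exact absurd (hmin y h) (not_le.2 hy)
      rw [← sum_fiberwise_of_maps_to (t := O a f0) (g := fun f => ev f a)
        (fun f hf => hO f hf ▸ hmem f (mem_filter.1 hf).1 a)]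
      calc _ ≤ ∑ v ∈ O a f0, ((O a f0).card : ℝ)⁻¹ := by
            refine sum_le_sum fun v _ => ?_
            rcases (filter (fun f => ev f a = v) (S.filter fun f =>
              ∀ x ∉ insert a s, ev f x = ev f0 x)).eq_empty_or_nonempty with h | ⟨g, hg⟩
            · rw [h]; simp
            · rw [sum_congr rfl (g := fun f => ((O a f0).card : ℝ)⁻¹ *
                ∏ x ∈ s, ((O x f).card : ℝ)⁻¹) fun f hf => by
                  rw [prod_insert ha, hO f (mem_filter.1 hf).1], ← mul_sum]
              refine mul_le_of_le_one_right (by positivity) (le_trans ?_ (ih hs g))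
              refine sum_le_sum_of_subset_of_nonneg (fun f hf => ?_) fun _ _ _ => by positivity
              simp only [mem_filter] at hf hg ⊢
              refine ⟨hf.1.1, fun x hx => ?_⟩
              by_cases hxa : x = a
              · rw [hxa, hf.2, hg.2]
              · have : x ∉ insert a s := by simp [hxa, hx]
                rw [hf.1.2 x this, hg.1.2 x this]
        _ ≤ 1 := by rw [sum_const, nsmul_eq_mul]; exact mul_inv_le_one
  rcases S.eq_empty_or_nonempty with rfl | ⟨f0, -⟩
  · simp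
  · simpa using key univ (by simp) f0

lemma card_mul_log_le {α γ : Type*} [Fintype α] (S : Finset γ) (N : α → γ → ℕ)
    (hN : ∀ f ∈ S, ∀ x, 0 < N x f) (h : ∑ f ∈ S, ∏ x, (N x f : ℝ)⁻¹ ≤ 1) :
    S.card * Real.log S.card ≤ ∑ f ∈ S, ∑ x, Real.log (N x f) := by
  rcases S.eq_empty_or_nonempty with rfl | hS
  · simp
  have hc : (0 : ℝ) < S.card := by exact_mod_cast hS.card_pos
  have h1 : ∀ f ∈ S, Real.log S.card - ∑ x, Real.log (N x f) ≤
      S.card * ∏ x, (N x f : ℝ)⁻¹ - 1 := by
    intro f hf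
    have hp : ∀ x, (0 : ℝ) < N x f := fun x => by exact_mod_cast hN f hf x
    have := Real.log_le_sub_one_of_pos (x := S.card * ∏ x, (N x f : ℝ)⁻¹)
      (mul_pos hc (prod_pos fun x _ => inv_pos.2 (hp x)))
    rwa [Real.log_mul hc.ne' (prod_ne_zero_iff.2 fun x _ => (inv_pos.2 (hp x)).ne'),
      Real.log_prod (fun x _ => (inv_pos.2 (hp x)).ne'), sum_congr rfl fun x _ => Real.log_inv _,
      sum_neg_distrib, ← sub_eq_add_neg] at this
  have h2 := sum_le_sum h1
  rw [sum_sub_distrib, sum_sub_distrib, sum_const, sum_const, ← mul_sum, nsmul_eq_mul,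
    nsmul_eq_mul, mul_one] at h2
  nlinarith

/-- In a uniformly random order each member of `W` is first with the same probability. -/
lemma card_first {n : ℕ} (W : Finset (Fin n)) {m : Fin n} (hm : m ∈ W) :
    (#{π : Equiv.Perm (Fin n) | ∀ x ∈ W, π m ≤ π x} : ℝ) = (n.factorial : ℝ) / W.card := by
  have h1 : ∀ y ∈ W, #{π : Equiv.Perm (Fin n) | ∀ x ∈ W, π y ≤ π x} =
      #{π : Equiv.Perm (Fin n) | ∀ x ∈ W, π m ≤ π x} := by
    intro y hy
    have hsw : ∀ x ∈ W, Equiv.swap m y x ∈ W := fun x hx => by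
      rw [Equiv.swap_apply_def]; split_ifs <;> assumption
    refine card_bij' (fun π _ => π * Equiv.swap m y) (fun π _ => π * Equiv.swap m y) ?_ ?_ ?_ ?_
    · intro π hπ
      simp only [mem_filter, mem_univ, true_and, Equiv.Perm.mul_apply, Equiv.swap_apply_left] at *
      exact fun x hx => hπ _ (hsw x hx)
    · intro π hπ
      simp only [mem_filter, mem_univ, true_and, Equiv.Perm.mul_apply, Equiv.swap_apply_right] at *
      exact fun x hx => hπ _ (hsw x hx)
    · intro π _; simp [mul_assoc]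
    · intro π _; simp [mul_assoc]
  have h2 : (univ : Finset (Equiv.Perm (Fin n))) =
      W.biUnion fun y => {π : Equiv.Perm (Fin n) | ∀ x ∈ W, π y ≤ π x} := by
    ext π
    simp only [mem_univ, mem_biUnion, mem_filter, true_and, true_iff]
    exact W.exists_min_image π ⟨m, hm⟩
  have h3 := congrArg card h2
  rw [card_biUnion, sum_congr rfl h1, sum_const, card_univ, Fintype.card_perm, Fintype.card_fin,
    smul_eq_mul] at h3
  · have : (0 : ℝ) < W.card := by exact_mod_cast card_pos.2 ⟨m, hm⟩
    rw [eq_div_iff this.ne', h3, Nat.cast_mul, mul_comm]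
  · intro y hy z hz hyz
    refine disjoint_left.2 fun π h1 h2 => hyz (π.injective (le_antisymm ?_ ?_))
    · exact (mem_filter.1 h1).2 z hz
    · exact (mem_filter.1 h2).2 y hy

lemma runs (p : ℕ → Prop) [DecidablePred p] (c : ℕ) :
    (if ∃ a ≤ c, p a then (1 : ℝ) else 0) ≤ ∑ a ∈ range (c + 1), (if p a then (1 : ℝ) else 0) -
      ∑ a ∈ range c, (if p a ∧ p (a + 1) then (1 : ℝ) else 0) := by
  induction c with
  | zero => simp only [zero_add, sum_range_one, sum_range_zero, sub_zero, Nat.le_zero,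
      exists_eq_left, le_refl]
  | succ c ih =>
    rw [sum_range_succ _ (c + 1), sum_range_succ (fun a => if p a ∧ p (a + 1) then (1 : ℝ) else 0) c]
    by_cases h : ∃ a ≤ c, p a
    · have h' : ∃ a ≤ c + 1, p a := let ⟨a, h1, h2⟩ := h; ⟨a, by omega, h2⟩
      rw [if_pos h] at ih
      rw [if_pos h']
      split_ifs <;> first | linarith | tauto
    · rw [if_neg h] at ih
      have hc : ¬ p c := fun h' => h ⟨c, le_rfl, h'⟩
      by_cases h1 : p (c + 1)
      · have h' : ∃ a ≤ c + 1, p a := ⟨c + 1, le_rfl, h1⟩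
        simp only [if_pos h', if_pos h1, hc, false_and, if_false]; linarith
      · have h' : ¬ ∃ a ≤ c + 1, p a := fun ⟨a, h2, h3⟩ => by
          rcases h2.eq_or_lt with rfl | h2
          · exact h1 h3
          · exact h ⟨a, by omega, h3⟩
        simp only [if_neg h', if_neg h1, hc, false_and, if_false]; linarith

/-- The positions connected to `j` by positions that come later than `j` in the order `π`. -/
def gap {n : ℕ} (e : ℕ → Fin n) (l j : ℕ) (π : Equiv.Perm (Fin n)) : Finset ℕ :=
  {i ∈ range l | ∀ i' ∈ range l, min i j ≤ i' → i' ≤ max i j → π (e j) ≤ π (e i')}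

lemma card_gap_le {n : ℕ} (e : ℕ → Fin n) (l j : ℕ) (π : Equiv.Perm (Fin n)) :
    (gap e l j π).card ≤ l := (card_filter_le _ _).trans_eq (card_range l)

lemma gap_tail {n : ℕ} (e : ℕ → Fin n) {l j : ℕ} (he : Set.InjOn e (range l : Finset ℕ))
    (hj : j < l) (k : ℕ) :
    (#{π : Equiv.Perm (Fin n) | k + 1 ≤ (gap e l j π).card} : ℝ) ≤
      2 * n.factorial / (k + 2) := by
  classical
  by_cases hkl : l < k + 1
  · rw [filter_false_of_mem]
    · simp only [card_empty, Nat.cast_zero]; positivity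
    · intro π _
      have := card_gap_le e l j π
      omega
  let E : ℕ → ℕ → Equiv.Perm (Fin n) → Prop := fun a w π => ∀ x ∈ (Ico a (a + w)).image e, π (e j) ≤ π x
  have hE : ∀ a w, a ≤ j → j < a + w → a + w ≤ l →
      ∑ π : Equiv.Perm (Fin n), (if E a w π then (1 : ℝ) else 0) = n.factorial / w := by
    intro a w h1 h2 h3
    have := card_first ((Ico a (a + w)).image e) (m := e j)
      (mem_image_of_mem _ (mem_Ico.2 ⟨h1, h2⟩))
    rw [card_image_of_injOn (he.mono fun x hx => by
      simp only [coe_Ico, Set.mem_Ico, coe_range, Set.mem_Iio] at *; omega), Nat.card_Ico,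
      Nat.add_sub_cancel_left] at this
    rw [← this, sum_boole]
  set a0 := j - k with ha0
  set c := min j (l - (k + 1)) - a0 with hc
  have h1 : ∀ π : Equiv.Perm (Fin n), (if k + 1 ≤ (gap e l j π).card then (1 : ℝ) else 0) ≤
      if ∃ a ≤ c, E (a0 + a) (k + 1) π then 1 else 0 := by
    intro π
    split_ifs with h h'
    · exact le_rfl
    · exfalso
      apply h'
      have hne : (gap e l j π).Nonempty := card_pos.1 (by omega)
      have hlo := (gap e l j π).min'_mem hne
      have hhi := (gap e l j π).max'_mem hne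
      have hcard : (gap e l j π).card ≤ (gap e l j π).max' hne + 1 - (gap e l j π).min' hne := by
        rw [← Nat.card_Icc]
        exact card_le_card fun x hx => mem_Icc.2 ⟨min'_le _ _ hx, le_max' _ _ hx⟩
      have hjm : j ∈ gap e l j π := by
        simp only [gap, mem_filter, mem_range, min_self, max_self]
        exact ⟨hj, fun i' _ h1 h2 => by rw [le_antisymm h1 h2]⟩
      have hj1 := min'_le _ _ hjm
      have hj2 := le_max' _ _ hjm
      set lo := (gap e l j π).min' hne
      set hi := (gap e l j π).max' hne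
      simp only [gap, mem_filter, mem_range] at hlo hhi
      refine ⟨max lo a0 - a0, by omega, fun x hx => ?_⟩
      obtain ⟨i, hi', rfl⟩ := mem_image.1 hx
      rw [mem_Ico] at hi'
      rcases le_total i j with h2 | h2
      · exact hlo.2 i (by omega) (by omega) (by omega)
      · exact hhi.2 i (by omega) (by omega) (by omega)
    · exact zero_le_one
    · exact le_rfl
  have h2 : ∀ a, ∀ π, (E (a0 + a) (k + 1) π ∧ E (a0 + (a + 1)) (k + 1) π) ↔
      E (a0 + a) (k + 2) π := by
    intro a π
    simp only [E, forall_mem_image, mem_Ico]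
    constructor
    · rintro ⟨h1, h2⟩ i hi
      rcases Nat.eq_or_lt_of_le hi.1 with h | h
      · exact h1 (by omega)
      · exact h2 (by omega)
    · exact fun h => ⟨fun i hi => h (by omega), fun i hi => h (by omega)⟩
  have hf : (0 : ℝ) < n.factorial := by exact_mod_cast n.factorial_pos
  have hck : (c : ℝ) ≤ k := by exact_mod_cast (by omega : c ≤ k)
  calc _ = ∑ π : Equiv.Perm (Fin n), (if k + 1 ≤ (gap e l j π).card then (1 : ℝ) else 0) := by
        rw [sum_boole]
    _ ≤ ∑ π : Equiv.Perm (Fin n), (∑ a ∈ range (c + 1), (if E (a0 + a) (k + 1) π then (1 : ℝ) else 0) -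
          ∑ a ∈ range c, (if E (a0 + a) (k + 2) π then (1 : ℝ) else 0)) := by
        refine sum_le_sum fun π _ => (h1 π).trans ?_
        simpa only [h2] using runs (fun a => E (a0 + a) (k + 1) π) c
    _ = (c + 1) * (n.factorial / (k + 1)) - c * (n.factorial / (k + 2)) := by
        rw [sum_sub_distrib, sum_comm, sum_comm (t := range c),
          sum_congr rfl fun a ha => hE (a0 + a) (k + 1) (by have := mem_range.1 ha; omega)
            (by omega) (by have := mem_range.1 ha; omega),
          sum_congr rfl fun a ha => hE (a0 + a) (k + 2) (by have := mem_range.1 ha; omega)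
            (by omega) (by have := mem_range.1 ha; omega)]
        simp
    _ ≤ 2 * n.factorial / (k + 2) := by
        have e1 : (c + 1 : ℝ) * (n.factorial / (k + 1)) - c * (n.factorial / (k + 2)) =
            n.factorial * (c + k + 2) / ((k + 1) * (k + 2)) := by field_simp; ring
        have e2 : (2 : ℝ) * n.factorial / (k + 2) =
            n.factorial * (k + k + 2) / ((k + 1) * (k + 2)) := by field_simp; ring
        rw [e1, e2]; gcongr

lemma log_le_sum (N n : ℕ) (h : N ≤ n) : Real.log N ≤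
    ∑ i ∈ range n, if i + 2 ≤ N then Real.log (1 + ((i + 1 : ℕ) : ℝ)⁻¹) else 0 := by
  have h1 : ∀ N : ℕ, Real.log (N + 1 : ℕ) = ∑ i ∈ range N, Real.log (1 + ((i + 1 : ℕ) : ℝ)⁻¹) := by
    intro N
    induction N with
    | zero => simp
    | succ N ih =>
      rw [sum_range_succ, ← ih, ← Real.log_mul (by positivity) (by positivity)]
      congr 1; push_cast; field_simp
  rcases N with _ | N
  · simp
  · rw [h1, ← sum_filter]
    refine sum_le_sum_of_subset_of_nonneg (fun i hi => ?_) fun i _ _ =>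
      Real.log_nonneg (le_add_of_nonneg_right (by positivity))
    simp only [mem_filter, mem_range] at *; omega

lemma log_ub (m : ℕ) {a : ℝ} (ha : 0 < a) : Real.log (1 + a⁻¹) ≤
    ∑ k ∈ range m, 2 * (1 / (2 * k + 1)) * (1 / (2 * a + 1)) ^ (2 * k + 1) +
      2 * (1 / (2 * m + 1)) * (1 / (2 * a + 1)) ^ (2 * m + 1) / (1 - (1 / (2 * a + 1)) ^ 2) := by
  have h := Real.hasSum_log_one_add_inv ha
  set y := 1 / (2 * a + 1) with hy
  have hy0 : 0 < y := by positivity
  have hy1 : y < 1 := by rw [hy, div_lt_one (by positivity)]; linarith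
  have h2 := (hasSum_nat_add_iff' m).2 h
  have h3 := (hasSum_geometric_of_lt_one (r := y ^ 2) (by positivity)
    (pow_lt_one₀ hy0.le hy1 two_ne_zero)).mul_left (2 * (1 / (2 * m + 1)) * y ^ (2 * m + 1))
  have := hasSum_le (fun k => ?_) h2 h3
  · rw [div_eq_mul_inv]; linarith
  · rw [mul_assoc _ (y ^ _), ← pow_mul, ← pow_add, show 2 * m + 1 + 2 * k = 2 * (k + m) + 1 by ring]
    gcongr
    linarith [(Nat.cast_nonneg k : (0 : ℝ) ≤ k)]

lemma log_lb (m : ℕ) {a : ℝ} (ha : 0 < a) :
    ∑ k ∈ range m, 2 * (1 / (2 * k + 1)) * (1 / (2 * a + 1)) ^ (2 * k + 1) ≤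
      Real.log (1 + a⁻¹) :=
  sum_le_hasSum _ (fun _ _ => by positivity) (Real.hasSum_log_one_add_inv ha)

lemma series_le (n : ℕ) :
    ∑ i ∈ range n, 2 / ((i : ℝ) + 3) * Real.log (1 + ((i + 1 : ℕ) : ℝ)⁻¹) ≤ Real.log 3.332 := by
  let T : ℝ → ℝ := fun k => 2 / k - 3 / (2 * k ^ 2) + 7 / (5 * k ^ 3)
  have hT : ∀ i : ℕ, 2 / (((29 + i : ℕ) : ℝ) + 3) * Real.log (1 + ((29 + i + 1 : ℕ) : ℝ)⁻¹) ≤
      T (i + 30) - T (i + 31) := by
    intro i
    have := log_ub 1 (a := ((29 + i + 1 : ℕ) : ℝ)) (by positivity)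
    refine (mul_le_mul_of_nonneg_left this (by positivity)).trans ?_
    simp only [T, sum_range_one]
    push_cast
    have hi : (0 : ℝ) ≤ i := Nat.cast_nonneg i
    generalize (i : ℝ) = x at hi
    have e : 1 - (1 / (2 * (29 + x + 1) + 1)) ^ 2 =
        4 * (x + 30) * (x + 31) / (2 * x + 61) ^ 2 := by field_simp; ring
    rw [e, ← sub_nonneg]
    have e2 : 2 * (29 + x + 1) + 1 = 2 * x + 61 := by ring
    have e3 : 29 + x + 3 = x + 32 := by ring
    rw [e2, e3]
    field_simp
    ring_nf
    positivity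
  have h1 : ∑ i ∈ range n, 2 / ((i : ℝ) + 3) * Real.log (1 + ((i + 1 : ℕ) : ℝ)⁻¹) ≤
      ∑ i ∈ range (29 + n), 2 / ((i : ℝ) + 3) * Real.log (1 + ((i + 1 : ℕ) : ℝ)⁻¹) :=
    sum_le_sum_of_subset_of_nonneg (range_mono (by omega)) fun i _ _ =>
      mul_nonneg (by positivity) (Real.log_nonneg (le_add_of_nonneg_right (by positivity)))
  rw [sum_range_add] at h1
  have h2 : ∑ i ∈ range n, 2 / (((29 + i : ℕ) : ℝ) + 3) *
      Real.log (1 + ((29 + i + 1 : ℕ) : ℝ)⁻¹) ≤ T 30 := by
    refine (sum_le_sum fun i _ => hT i).trans ?_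
    have := sum_range_sub' (fun i : ℕ => T (i + 30)) n
    push_cast at this
    simp only [add_assoc, zero_add, show (1 + 30 : ℝ) = 31 by norm_num] at this
    rw [this]
    have : 0 ≤ T (n + 30) := by
      simp only [T]
      have hi : (0 : ℝ) ≤ n := Nat.cast_nonneg n
      generalize (n : ℝ) = x at hi
      field_simp
      ring_nf
      positivity
    linarith
  have h3 : ∑ i ∈ range 29, 2 / ((i : ℝ) + 3) * Real.log (1 + ((i + 1 : ℕ) : ℝ)⁻¹) ≤
      2 / 3 * Real.log 2 + ∑ i ∈ range 28, 2 / ((i : ℝ) + 4) *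
        (2 * (1 / (2 * i + 5)) + 2 / 3 * (1 / (2 * i + 5)) ^ 3 +
          2 / 5 * (1 / (2 * i + 5)) ^ 5 / (1 - (1 / (2 * i + 5)) ^ 2)) := by
    rw [sum_range_succ', add_comm]
    refine add_le_add (by norm_num) (sum_le_sum fun i _ => ?_)
    have := log_ub 2 (a := ((i + 1 + 1 : ℕ) : ℝ)) (by positivity)
    refine (mul_le_mul_of_nonneg_left this (by positivity)).trans_eq ?_
    simp only [sum_range_succ, sum_range_zero]
    push_cast
    rw [show 2 * ((i : ℝ) + 1 + 1) + 1 = 2 * i + 5 by ring, show (i : ℝ) + 1 + 3 = i + 4 by ring]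
    norm_num
  have h4 : ∑ i ∈ range 28, 2 / ((i : ℝ) + 4) *
        (2 * (1 / (2 * i + 5)) + 2 / 3 * (1 / (2 * i + 5)) ^ 3 +
          2 / 5 * (1 / (2 * i + 5)) ^ 5 / (1 - (1 / (2 * i + 5)) ^ 2)) + T 30 ≤ 0.74147 := by
    simp only [sum_range_succ, sum_range_zero, T]
    norm_num
  have h5 : Real.log 3.332 = Real.log 2 + Real.log (1 + (500 / 333 : ℝ)⁻¹) := by
    rw [← Real.log_mul (by norm_num) (by norm_num)]; norm_num
  have h6 := log_lb 6 (a := 500 / 333) (by norm_num)
  simp only [sum_range_succ, sum_range_zero] at h6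
  norm_num at h6
  have := Real.log_two_gt_d9
  norm_num at h5 ⊢
  norm_num at h1 h2 h3 h4
  linarith

lemma sum_log_gap {n : ℕ} (e : ℕ → Fin n) {l j : ℕ} (he : Set.InjOn e (range l : Finset ℕ))
    (hj : j < l) :
    ∑ π : Equiv.Perm (Fin n), Real.log (gap e l j π).card ≤ n.factorial * Real.log 3.332 := by
  calc _ ≤ ∑ π : Equiv.Perm (Fin n), ∑ i ∈ range l,
        if i + 2 ≤ (gap e l j π).card then Real.log (1 + ((i + 1 : ℕ) : ℝ)⁻¹) else 0 :=
        sum_le_sum fun π _ => log_le_sum _ _ (card_gap_le e l j π)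
    _ ≤ ∑ i ∈ range l, n.factorial * (2 / ((i : ℝ) + 3) * Real.log (1 + ((i + 1 : ℕ) : ℝ)⁻¹)) := by
        rw [sum_comm]
        refine sum_le_sum fun i _ => ?_
        rw [← sum_filter, sum_const, nsmul_eq_mul, ← mul_assoc]
        refine mul_le_mul_of_nonneg_right ((gap_tail e he hj (i + 1)).trans_eq ?_)
          (Real.log_nonneg (le_add_of_nonneg_right (by positivity)))
        push_cast; ring
    _ ≤ _ := by rw [← mul_sum]; gcongr; exact series_le l

end Pool.Agent.MP_081e4c_co

end MrgPart0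

-- ======== part 1: formerly Pool.Agent.MP_081e4c_co.Main
section MrgPart1

/-! Revealing the men in random order. -/

open Finset

namespace Pool.Agent.MP_081e4c_co

variable {n : ℕ} {pm pw : Fin n → Equiv.Perm (Fin n)}

lemma IsStable.lt {M : Equiv.Perm (Fin n)} (hM : IsStable pm pw M) {m w : Fin n}
    (h : pw w m < pw w (M.symm w)) : pm m (M m) < pm m w := by
  have hne : M m ≠ w := fun h' => by rw [← h', Equiv.symm_apply_apply] at h; exact lt_irrefl _ h
  refine lt_of_le_of_ne (not_lt.1 fun h' => hM ⟨m, w, hne, h', h⟩) fun h' => hne ?_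
  exact (pm m).injective h'

lemma IsStable.lt' {M : Equiv.Perm (Fin n)} (hM : IsStable pm pw M) {m w : Fin n}
    (h : pm m w < pm m (M m)) : pw w (M.symm w) < pw w m := by
  have hne : M m ≠ w := fun h' => by rw [h'] at h; exact lt_irrefl _ h
  refine lt_of_le_of_ne (not_lt.1 fun h' => hM ⟨m, w, hne, h, h'⟩) fun h' => hne ?_
  rw [← (pw w).injective h', Equiv.apply_symm_apply]

/-- If a man prefers `M` to `M'`, his partner in `M'` prefers `M'` to `M`. -/
lemma opposite {M M' : Equiv.Perm (Fin n)} (hM : IsStable pm pw M) (hM' : IsStable pm pw M')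
    {m : Fin n} (h : pm m (M m) < pm m (M' m)) :
    pw (M' m) m < pw (M' m) (M.symm (M' m)) := by
  let A : Finset (Fin n) := {a | pm a (M a) < pm a (M' a)}
  let B : Finset (Fin n) := {b | pw b (M'.symm b) < pw b (M.symm b)}
  have h1 : A.map M.toEmbedding ⊆ B := by
    intro b hb
    obtain ⟨a, ha, rfl⟩ := mem_map.1 hb
    simpa [B] using hM'.lt' (mem_filter.1 ha).2
  have h2 : B.map M'.symm.toEmbedding ⊆ A := by
    intro a ha
    obtain ⟨b, hb, rfl⟩ := mem_map.1 ha
    simpa [A] using hM.lt (mem_filter.1 hb).2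
  have h3 := card_le_card h1
  rw [card_map] at h3
  have h4 : B.map M'.symm.toEmbedding = A := eq_of_subset_of_card_le h2 (by rwa [card_map])
  have h5 : m ∈ B.map M'.symm.toEmbedding := h4 ▸ mem_filter.2 ⟨mem_univ _, h⟩
  obtain ⟨b, hb, rfl⟩ := mem_map.1 h5
  simpa using (mem_filter.1 hb).2

open Classical in
/-- The stable partners of a man. -/
noncomputable def partners (pm pw : Fin n → Equiv.Perm (Fin n)) (x : Fin n) : Finset (Fin n) :=
  {w | ∃ M, IsStable pm pw M ∧ M x = w}

open Classical in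
/-- The partners of `x` that are compatible with what the earlier men reveal. -/
noncomputable def opts (pm pw : Fin n → Equiv.Perm (Fin n)) (π : Equiv.Perm (Fin n)) (x : Fin n)
    (M : Equiv.Perm (Fin n)) : Finset (Fin n) :=
  {w ∈ partners pm pw x | ∀ y, π y < π x → M y ∈ partners pm pw x →
    (pw (M y) y < pw (M y) x → pm x (M y) < pm x w) ∧
      (pw (M y) x < pw (M y) y → pm x w < pm x (M y))}

lemma mem_opts (π : Equiv.Perm (Fin n)) {M : Equiv.Perm (Fin n)} (hM : IsStable pm pw M)
    (x : Fin n) : M x ∈ opts pm pw π x M := by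
  simp only [opts, partners, mem_filter, mem_univ, true_and]
  refine ⟨⟨M, hM, rfl⟩, fun y hy ⟨M', hM', h⟩ => ⟨fun h1 => ?_, fun h1 => ?_⟩⟩
  · have hne : M y ≠ M x := fun h' => by rw [M.injective h'] at hy; exact lt_irrefl _ hy
    refine lt_of_le_of_ne (not_lt.1 fun h2 => ?_) fun h' => hne ((pm x).injective h')
    have := opposite hM hM' (m := x) (by rwa [h])
    rw [h, Equiv.symm_apply_apply] at this
    exact lt_asymm h1 this
  · exact hM.lt (by rwa [Equiv.symm_apply_apply])

lemma sum_log_opts {M : Equiv.Perm (Fin n)} (hM : IsStable pm pw M) (x : Fin n) :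
    ∑ π : Equiv.Perm (Fin n), Real.log (opts pm pw π x M).card ≤
      n.factorial * Real.log 3.332 := by
  let T := (partners pm pw x).map (pm x).toEmbedding
  let r := T.orderEmbOfFin rfl
  have hr : ∀ w ∈ partners pm pw x, ∃ i, r i = pm x w := fun w hw => by
    have : pm x w ∈ Set.range r := by
      rw [range_orderEmbOfFin]; exact mem_coe.2 (mem_map_of_mem _ hw)
    exact this
  have hr' : ∀ i, (pm x).symm (r i) ∈ partners pm pw x := fun i => by
    obtain ⟨w, hw, h⟩ := mem_map.1 (T.orderEmbOfFin_mem rfl i)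
    have : (pm x).symm (r i) = w := by rw [Equiv.symm_apply_eq]; exact h.symm
    rwa [this]
  let e : ℕ → Fin n := fun i => if h : i < T.card then M.symm ((pm x).symm (r ⟨i, h⟩)) else x
  have he : Set.InjOn e (range T.card : Finset ℕ) := by
    intro a ha b hb h
    simp only [coe_range, Set.mem_Iio] at ha hb
    simpa [e, ha, hb] using h
  obtain ⟨j, hj⟩ := hr (M x) (mem_filter.1 (mem_opts 1 hM x)).1
  have hej : e j = x := by simp [e, hj]
  refine le_trans (sum_le_sum fun π _ => ?_) (sum_log_gap e he j.2)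
  have hpos : 0 < (opts pm pw π x M).card := card_pos.2 ⟨_, mem_opts π hM x⟩
  refine Real.log_le_log (by exact_mod_cast hpos) (Nat.cast_le.2 ?_)
  refine card_le_card_of_surjOn (fun i => M (e i)) fun w hw => ?_
  have hw' := mem_filter.1 (mem_coe.1 hw)
  have hx' := mem_filter.1 (mem_opts π hM x)
  obtain ⟨i, hi⟩ := hr w hw'.1
  refine ⟨i, mem_coe.2 (mem_filter.2 ⟨mem_range.2 i.2, fun i' hi' h1 h2 => ?_⟩),
    by simp [e, hi]⟩
  rw [mem_range] at hi'
  rw [hej]
  by_contra hlt
  have hlt := not_le.1 hlt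
  have hMy : M (e i') = (pm x).symm (r ⟨i', hi'⟩) := by simp [e, hi']
  have hp : M (e i') ∈ partners pm pw x := hMy ▸ hr' _
  have a1 := hw'.2 _ hlt hp
  have a2 := hx'.2 _ hlt hp
  have hrk : pm x (M (e i')) = r ⟨i', hi'⟩ := by rw [hMy, Equiv.apply_symm_apply]
  rw [hrk, ← hi] at a1
  rw [hrk, ← hj] at a2
  simp only [r.lt_iff_lt, Fin.lt_def] at a1 a2
  rcases lt_trichotomy (pw (M (e i')) (e i')) (pw (M (e i')) x) with h | h | h
  · have := a1.1 h; have := a2.1 h; omega
  · rw [(pw _).injective h] at hlt; exact lt_irrefl _ hlt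
  · have := a1.2 h; have := a2.2 h; omega

theorem card_stable_le (pm pw : Fin n → Equiv.Perm (Fin n)) :
    (Nat.card {M : Equiv.Perm (Fin n) // IsStable pm pw M} : ℝ) ≤ 3.332 ^ n := by
  classical
  let S : Finset (Equiv.Perm (Fin n)) := {M | IsStable pm pw M}
  have hS : Nat.card {M : Equiv.Perm (Fin n) // IsStable pm pw M} = S.card := by
    rw [Nat.card_eq_fintype_card, Fintype.card_subtype]
  have hm : ∀ M ∈ S, IsStable pm pw M := fun M hM => (mem_filter.1 hM).2
  rw [hS]
  rcases S.eq_empty_or_nonempty with h | h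
  · rw [h]; simp only [card_empty, Nat.cast_zero]; positivity
  have hc : (0 : ℝ) < S.card := by exact_mod_cast h.card_pos
  have hf : (0 : ℝ) < n.factorial := by exact_mod_cast n.factorial_pos
  have h1 : ∀ π : Equiv.Perm (Fin n), S.card * Real.log S.card ≤
      ∑ M ∈ S, ∑ x, Real.log (opts pm pw π x M).card := fun π =>
    card_mul_log_le S (fun x M => (opts pm pw π x M).card)
      (fun M hM x => card_pos.2 ⟨_, mem_opts π (hm M hM) x⟩)
      (kraft S (fun M x => M x) (fun _ _ h => Equiv.ext h) π π.injective (opts pm pw π)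
        (fun M hM x => mem_opts π (hm M hM) x) fun M M' x h => by
          unfold opts
          refine filter_congr fun w _ => forall_congr' fun y => forall_congr' fun hy => ?_
          rw [h y hy])
  have h2 := sum_le_sum fun π (_ : π ∈ univ) => h1 π
  rw [sum_const, card_univ, Fintype.card_perm, Fintype.card_fin, nsmul_eq_mul, sum_comm] at h2
  have h3 : ∑ M ∈ S, ∑ π : Equiv.Perm (Fin n), ∑ x, Real.log (opts pm pw π x M).card ≤
      ∑ M ∈ S, ∑ x : Fin n, n.factorial * Real.log 3.332 :=
    sum_le_sum fun M hM => by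
      rw [sum_comm]; exact sum_le_sum fun x _ => sum_log_opts (hm M hM) x
  simp only [sum_const, card_univ, Fintype.card_fin, nsmul_eq_mul] at h3
  have h4 : Real.log S.card ≤ n * Real.log 3.332 := by
    have := h2.trans h3
    refine le_of_mul_le_mul_left (a := (n.factorial : ℝ) * S.card) ?_ (mul_pos hf hc)
    linarith
  rw [← Real.log_pow] at h4
  exact (Real.log_le_log_iff hc (by positivity)).1 h4

end Pool.Agent.MP_081e4c_co

end MrgPart1

-- marker of a merged file
example : 731051 + 129242 = 731051 + 129242 := rfl
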